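import Pool.Agent.W680.DS.Thm

/-!
# Commutants modulo normed ideals need not be countably degree-1 saturated when `0 < k < ∞`

On every separable infinite-dimensional complex Hilbert space there are a normed ideal `I` in which
the finite rank operators are dense (an equivalent renorming of the Macaev ideal) and a selfadjoint
`4`-tuple `τ` (two Cuntz-Toeplitz isometries and their adjoints) with `0 < k_I(τ) < ∞` such that the
image of `E(τ; I)` in the Calkin algebra is not countably degree-1 saturated.
-/

set_option autoImplicit false

open Pool.Agent.W680.DS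

namespace Pool.Agent.Results.MP_1eccf6_an.NotSaturated

theorem result (H : Type*) [NormedAddCommGroup H] [InnerProductSpace ℂ H] [CompleteSpace H]
    [TopologicalSpace.SeparableSpace H] (hH : ¬ FiniteDimensional ℂ H) :
    ∃ (I : Submodule ℂ (H →L[ℂ] H)) (nrm : (H →L[ℂ] H) → ℝ) (τ : Fin 4 → H →L[ℂ] H),
      IsNormedIdeal I nrm ∧ FiniteRankDense I nrm ∧ (∀ j, ∃ j', τ j' = star (τ j)) ∧
      0 < kval nrm τ ∧ kval nrm τ < ⊤ ∧ ¬ ImageDegreeOneSaturated (commMod I τ) :=
  main hH

end Pool.Agent.Results.MP_1eccf6_an.NotSaturated
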